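import Mathlib

set_option autoImplicit false

namespace Pool.Agent.Schubert


section Abstract
variable {A E : Type*} [CommRing A] [Ring E] [Algebra A E]

/-- `bb v k y = (1 + y v_{k-1}) ⋯ (1 + y v_0)`. -/
def bb (v : ℕ → E) : ℕ → A → E
  | 0, _ => 1
  | k + 1, y => (1 + y • v k) * bb v k y

/-- nilCoxeter relations for `v 0, …, v (K-1)`. -/
structure Nil (v : ℕ → E) (K : ℕ) : Prop where
  sq : ∀ k < K, v k * v k = 0
  comm : ∀ k l, k + 2 ≤ l → l < K → v k * v l = v l * v k
  braid : ∀ k, k + 1 < K → v k * v (k + 1) * v k = v (k + 1) * v k * v (k + 1)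

theorem Nil.commute_bb {v : ℕ → E} {K : ℕ} (hv : Nil v K) (k l : ℕ) (hkl : k + 1 ≤ l) (hl : l < K)
    (y : A) : Commute (v l) (bb v k y) := by
  induction k with
  | zero => exact Commute.one_right _
  | succ k ih =>
    rw [bb]
    refine Commute.mul_right ?_ (ih (by omega))
    refine Commute.add_right (Commute.one_right _) (Commute.smul_right ?_ _)
    exact (hv.comm k l (by omega) hl).symm

theorem one_sub_mul_one_add {v : E} (hv : v * v = 0) (x : A) :
    (1 - x • v) * (1 + x • v) = 1 := by
  have : (1 - x • v) * (1 + x • v) = 1 - (x * x) • (v * v) := by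
    simp only [sub_mul, mul_add, one_mul, mul_one, smul_mul_assoc, mul_smul_comm, smul_smul,
      smul_add]
    module
  rw [this, hv, smul_zero, sub_zero]

theorem Nil.key {v : ℕ → E} {K : ℕ} (hv : Nil v K) (k : ℕ) (hk : k + 1 < K) (x y : A) :
    (1 + x • v (k + 1)) * (1 + x • v k) * (1 + y • v (k + 1)) * (1 - x • v k) =
      1 + (x + y) • v (k + 1) + (x * y) • (v k * v (k + 1)) - (x * y) • (v (k + 1) * v k) := by
  have h1 := hv.sq k (by omega)
  have h2 := hv.sq (k + 1) hk
  have h3 := hv.braid k hk
  generalize v k = a at *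
  generalize v (k + 1) = b at *
  have h4 : b * (a * (b * a)) = 0 := by
    rw [← mul_assoc, ← mul_assoc, ← h3, mul_assoc, h1, mul_zero]
  have h5 : b * (a * b) = a * (b * a) := by
    rw [← mul_assoc, ← mul_assoc, ← h3]
  simp only [mul_sub, add_mul, mul_add, one_mul, mul_one, smul_mul_assoc, mul_smul_comm,
    smul_smul, mul_assoc, h1, h2, h4, h5, smul_zero, mul_zero, add_zero, smul_add]
  module

theorem Nil.bb_comm {v : ℕ → E} {K : ℕ} (hv : Nil v K) (k : ℕ) (hk : k ≤ K) (x y : A) :
    bb v k x * bb v k y = bb v k y * bb v k x := by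
  induction k using Nat.strong_induction_on generalizing x y with
  | _ k ih =>
    match k, hk, ih with
    | 0, _, _ => simp [bb]
    | 1, _, _ =>
      simp only [bb, mul_one, mul_add, add_mul, one_mul, smul_mul_assoc, mul_smul_comm, smul_smul]
      module
    | (k + 2), hk, ih =>
      have hA : ∀ x y : A, bb v (k + 2) x * bb v (k + 2) y =
          (1 + (x + y) • v (k + 1) + (x * y) • (v k * v (k + 1)) - (x * y) • (v (k + 1) * v k)) *
            (bb v (k + 1) x * bb v (k + 1) y) := by
        intro x y
        have hc : Commute (1 + y • v (k + 1)) (bb v k x) :=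
          Commute.add_left (Commute.one_left _)
            (Commute.smul_left (hv.commute_bb k (k + 1) (by omega) (by omega) x) _)
        have h0 : bb v k x = (1 - x • v k) * bb v (k + 1) x := by
          rw [bb, ← mul_assoc, one_sub_mul_one_add (hv.sq k (by omega)), one_mul]
        rw [← hv.key k (by omega) x y]
        calc bb v (k + 2) x * bb v (k + 2) y
            = (1 + x • v (k + 1)) * ((1 + x • v k) * bb v k x) *
                ((1 + y • v (k + 1)) * bb v (k + 1) y) := by
              simp only [bb]
          _ = (1 + x • v (k + 1)) * (1 + x • v k) * (bb v k x * (1 + y • v (k + 1))) *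
                bb v (k + 1) y := by
              simp only [mul_assoc]
          _ = (1 + x • v (k + 1)) * (1 + x • v k) * ((1 + y • v (k + 1)) * bb v k x) *
                bb v (k + 1) y := by
              rw [hc.eq]
          _ = _ := by
              conv_lhs => rw [h0]
              simp only [mul_assoc]
      rw [hA x y, hA y x, ih (k + 1) (by omega) (by omega) x y, add_comm y x, mul_comm y x]

theorem Nil.bb_D {v : ℕ → E} {K : ℕ} (hv : Nil v K) (k : ℕ) (hk : k < K) (x y : A) :
    bb v k y * bb v (k + 1) x - bb v k x * bb v (k + 1) y =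
      (x - y) • (v k * (bb v k y * bb v (k + 1) x)) := by
  have hsq := hv.sq k hk
  have h0 : ∀ x : A, bb v k x = (1 - x • v k) * bb v (k + 1) x := by
    intro x
    rw [bb, ← mul_assoc, one_sub_mul_one_add hsq, one_mul]
  rw [h0 x, h0 y, mul_assoc, mul_assoc, hv.bb_comm (k + 1) (by omega) x y]
  generalize bb v (k + 1) y * bb v (k + 1) x = W
  have : v k * (v k * W) = 0 := by rw [← mul_assoc, hsq, zero_mul]
  simp only [sub_mul, one_mul, mul_sub, smul_mul_assoc, mul_smul_comm, this, smul_zero, sub_zero]
  module

/-- `tt v z m j = b_{m-j+1}(z_{j-1}) ⋯ b_{m}(z_0)`. -/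
def tt (v : ℕ → E) (z : ℕ → A) (m : ℕ) : ℕ → E
  | 0 => 1
  | j + 1 => bb v (m - j) (z j) * tt v z m j

theorem tt_congr (v : ℕ → E) (z z' : ℕ → A) (m j : ℕ) (h : ∀ i < j, z i = z' i) :
    tt v z m j = tt v z' m j := by
  induction j with
  | zero => rfl
  | succ j ih =>
    rw [tt, tt, h j (by omega), ih (fun i hi => h i (by omega))]

theorem Nil.tt_swap {v : ℕ → E} {m : ℕ} (hv : Nil v m) (z : ℕ → A) (i : ℕ) (hi : i < m) (j : ℕ)
    (hj : i + 2 ≤ j) (hjm : j ≤ m + 1) :
    tt v z m j - tt v (z ∘ Equiv.swap i (i + 1)) m j =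
      (z i - z (i + 1)) • (v (m - 1 - i) * tt v z m j) := by
  induction j, hj using Nat.le_induction with
  | base =>
    have e1 : m - i = (m - 1 - i) + 1 := by omega
    have e2 : m - (i + 1) = m - 1 - i := by omega
    have e3 : tt v (z ∘ Equiv.swap i (i + 1)) m i = tt v z m i := by
      apply tt_congr
      intro k hk
      simp only [Function.comp]
      rw [Equiv.swap_apply_of_ne_of_ne (by omega) (by omega)]
    have hD := hv.bb_D (m - 1 - i) (by omega) (z i) (z (i + 1))
    have e4 : (z ∘ Equiv.swap i (i + 1)) i = z (i + 1) := by simp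
    have e5 : (z ∘ Equiv.swap i (i + 1)) (i + 1) = z i := by simp
    rw [tt, tt, tt, tt, e4, e5, e1, e2, e3]
    rw [← mul_assoc, ← mul_assoc, ← sub_mul, hD, smul_mul_assoc, mul_assoc (v _)]
  | succ j hij ih =>
    have e3 : (z ∘ Equiv.swap i (i + 1)) j = z j := by
      simp only [Function.comp]
      rw [Equiv.swap_apply_of_ne_of_ne (by omega) (by omega)]
    have hc := hv.commute_bb (m - j) (m - 1 - i) (by omega) (by omega) (z j)
    rw [tt, tt, e3, ← mul_sub, ih (by omega), mul_smul_comm, ← mul_assoc, ← hc.eq, mul_assoc]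

end Abstract


section Ops
open Equiv
variable {A : Type*} [CommRing A] {α : Type*} [LinearOrder α]

/-- The operator `f ↦ (w ↦ f (w (i j)) if w j < w i, else 0)` on functions on permutations. -/
def Uop (i j : α) : Module.End A (Perm α → A) where
  toFun f w := if w j < w i then f (w * swap i j) else 0
  map_add' f g := by
    funext w
    by_cases h : w j < w i <;> simp [h]
  map_smul' c f := by
    funext w
    by_cases h : w j < w i <;> simp [h]

theorem Uop_apply (i j : α) (f : Perm α → A) (w : Perm α) :
    (Uop i j : Module.End A (Perm α → A)) f w = if w j < w i then f (w * swap i j) else 0 := rfl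

theorem Uop_sq (i j : α) : (Uop i j : Module.End A (Perm α → A)) * Uop i j = 0 := by
  apply LinearMap.ext
  intro f
  funext w
  simp only [Module.End.mul_apply, Uop_apply, LinearMap.zero_apply, Pi.zero_apply]
  by_cases h : w j < w i
  · simp [h, not_lt_of_gt h]
  · simp [h]

theorem Uop_comm (i j k l : α) (h1 : k ≠ i) (h2 : k ≠ j) (h3 : l ≠ i) (h4 : l ≠ j) :
    (Uop i j : Module.End A (Perm α → A)) * Uop k l = Uop k l * Uop i j := by
  apply LinearMap.ext
  intro f
  funext w
  have e : swap i j * swap k l = swap k l * swap i j := by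
    apply Equiv.ext
    intro x
    simp only [Perm.mul_apply, swap_apply_def]
    split_ifs <;> simp_all
  simp only [Module.End.mul_apply, Uop_apply, Perm.mul_apply,
    swap_apply_of_ne_of_ne h1 h2, swap_apply_of_ne_of_ne h3 h4,
    swap_apply_of_ne_of_ne h1.symm h3.symm, swap_apply_of_ne_of_ne h2.symm h4.symm]
  by_cases h : w j < w i <;> by_cases h' : w l < w k <;> simp [h, h', mul_assoc, e]

theorem Uop_braid (i j k : α) (h1 : i ≠ j) (h2 : j ≠ k) (h3 : i ≠ k) :
    (Uop i j : Module.End A (Perm α → A)) * Uop j k * Uop i j = Uop j k * Uop i j * Uop j k := by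
  apply LinearMap.ext
  intro f
  funext w
  have e : w * swap i j * swap j k * swap i j = w * swap j k * swap i j * swap j k := by
    have : swap i j * swap j k * swap i j = swap j k * swap i j * swap j k := by
      apply Equiv.ext
      intro x
      simp only [Perm.mul_apply, swap_apply_def]
      split_ifs <;> simp_all
    simp only [mul_assoc] at this ⊢
    rw [this]
  simp only [Module.End.mul_apply, Uop_apply, Perm.mul_apply, swap_apply_left, swap_apply_right,
    swap_apply_of_ne_of_ne h3.symm h2.symm, swap_apply_of_ne_of_ne h1 h3]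
  rw [e]
  have hij : w i ≠ w j := fun h => h1 (w.injective h)
  have hjk : w j ≠ w k := fun h => h2 (w.injective h)
  have hik : w i ≠ w k := fun h => h3 (w.injective h)
  split_ifs <;> first | rfl | (exfalso; order)

end Ops
end Pool.Agent.Schubert
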