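import Mathlib
import Pool.Agent.Schubert.NilCoxeter

set_option autoImplicit false

namespace Pool.Agent.Schubert
open Equiv

section Concrete
variable {A : Type*} [CommRing A]

/-- `vv m k` is the operator `U_{m-1-k}` attached to the adjacent transposition of the positions
`m-1-k` and `m-k` of `Fin (m+1)`. -/
def vv (A : Type*) [CommRing A] (m k : ℕ) : Module.End A (Perm (Fin (m + 1)) → A) :=
  if h : k < m then Uop ⟨m - 1 - k, by omega⟩ ⟨m - k, by omega⟩ else 0

theorem vv_eq (m k : ℕ) (a b : Fin (m + 1)) (ha : (a : ℕ) + k + 1 = m) (hb : (b : ℕ) + k = m) :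
    vv A m k = Uop a b := by
  unfold vv
  rw [dif_pos (by omega)]
  congr 1
  · apply Fin.ext; simp; omega
  · apply Fin.ext; simp; omega

theorem nil_vv (m : ℕ) : Nil (vv A m) m := by
  refine ⟨?_, ?_, ?_⟩
  · intro k hk
    rw [vv_eq m k ⟨m - 1 - k, by omega⟩ ⟨m - k, by omega⟩ (by simp; omega) (by simp; omega)]
    exact Uop_sq _ _
  · intro k l hkl hl
    rw [vv_eq m k ⟨m - 1 - k, by omega⟩ ⟨m - k, by omega⟩ (by simp; omega) (by simp; omega),
      vv_eq m l ⟨m - 1 - l, by omega⟩ ⟨m - l, by omega⟩ (by simp; omega) (by simp; omega)]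
    apply Uop_comm <;> (intro h; rw [Fin.ext_iff] at h; simp at h; omega)
  · intro k hk
    rw [vv_eq m k ⟨m - 1 - k, by omega⟩ ⟨m - k, by omega⟩ (by simp; omega) (by simp; omega),
      vv_eq m (k + 1) ⟨m - 1 - (k + 1), by omega⟩ ⟨m - 1 - k, by omega⟩ (by simp; omega)
        (by simp; omega)]
    symm
    apply Uop_braid <;> (intro h; rw [Fin.ext_iff] at h; simp at h; omega)

/-- The Dirac function at the identity. -/
def dlt (A : Type*) [CommRing A] (m : ℕ) : Perm (Fin (m + 1)) → A := fun w => if w = 1 then 1 else 0

/-- `PP z m w`: the coefficient of `w` in the product, in the variables `z 0, …, z (m-1)`. -/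
def PP (m : ℕ) (z : ℕ → A) : Perm (Fin (m + 1)) → A := tt (vv A m) z m (m + 1) (dlt A m)

section MapRing
variable {A' : Type*} [CommRing A'] (φ : A →+* A')

theorem map_Uop {α : Type*} [LinearOrder α] (i j : α) (f : Perm α → A) :
    (fun w => φ ((Uop i j : Module.End A (Perm α → A)) f w)) =
      (Uop i j : Module.End A' (Perm α → A')) (fun w => φ (f w)) := by
  funext w
  simp only [Uop_apply]
  split_ifs <;> simp

theorem map_vv (m k : ℕ) (f : Perm (Fin (m + 1)) → A) :
    (fun w => φ (vv A m k f w)) = vv A' m k (fun w => φ (f w)) := by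
  unfold vv
  split_ifs with h
  · exact map_Uop φ _ _ f
  · funext w; simp

theorem map_bb (m k : ℕ) (y : A) (f : Perm (Fin (m + 1)) → A) :
    (fun w => φ (bb (vv A m) k y f w)) = bb (vv A' m) k (φ y) (fun w => φ (f w)) := by
  induction k generalizing f with
  | zero => rfl
  | succ k ih =>
    rw [bb, bb, Module.End.mul_apply, Module.End.mul_apply, ← ih]
    simp only [LinearMap.add_apply, Module.End.one_apply, LinearMap.smul_apply]
    rw [← map_vv]
    funext w
    simp

theorem map_tt (m j : ℕ) (z : ℕ → A) (f : Perm (Fin (m + 1)) → A) :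
    (fun w => φ (tt (vv A m) z m j f w)) =
      tt (vv A' m) (fun i => φ (z i)) m j (fun w => φ (f w)) := by
  induction j with
  | zero => rfl
  | succ j ih =>
    rw [tt, tt, Module.End.mul_apply, Module.End.mul_apply, ← ih, ← map_bb]

theorem map_PP (m : ℕ) (z : ℕ → A) (w : Perm (Fin (m + 1))) :
    φ (PP m z w) = PP m (fun i => φ (z i)) w := by
  have := congrFun (map_tt φ m (m + 1) z (dlt A m)) w
  unfold PP
  rw [this]
  have e : (fun w => φ (dlt A m w)) = dlt A' m := by
    funext w
    unfold dlt
    split_ifs <;> simp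
  rw [e]

end MapRing

theorem PP_congr (m : ℕ) (z z' : ℕ → A) (h : ∀ i < m, z i = z' i) : PP m z = PP m z' := by
  unfold PP
  rw [tt, tt, Nat.sub_self, bb, bb, tt_congr _ z z' m m h]

theorem PP_swap (m : ℕ) (z : ℕ → A) (i : ℕ) (a b : Fin (m + 1)) (ha : (a : ℕ) = i)
    (hb : (b : ℕ) = i + 1) (w : Perm (Fin (m + 1))) :
    PP m z w - PP m (z ∘ swap i (i + 1)) w =
      (z i - z (i + 1)) * (if w b < w a then PP m z (w * swap a b) else 0) := by
  have h := (nil_vv (A := A) m).tt_swap z i (by omega) (m + 1) (by omega) le_rfl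
  rw [vv_eq m (m - 1 - i) a b (by omega) (by omega)] at h
  have := congrFun (congrArg (fun T => T (dlt A m)) h) w
  simpa [PP, Uop_apply] using this

/-- A set of ring elements closed under the construction. -/
theorem PP_mem (m : ℕ) (z : ℕ → A) (S : Subsemiring A) (hz : ∀ i < m, z i ∈ S)
    (w : Perm (Fin (m + 1))) : PP m z w ∈ S := by
  have hU : ∀ k, ∀ f : Perm (Fin (m + 1)) → A, (∀ w, f w ∈ S) → ∀ w, vv A m k f w ∈ S := by
    intro k f hf w
    unfold vv
    split_ifs with h
    · rw [Uop_apply]
      split_ifs
      · exact hf _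
      · exact S.zero_mem
    · exact S.zero_mem
  have hB : ∀ k, ∀ y ∈ S, ∀ f : Perm (Fin (m + 1)) → A, (∀ w, f w ∈ S) →
      ∀ w, bb (vv A m) k y f w ∈ S := by
    intro k y hy f hf
    induction k with
    | zero => exact hf
    | succ k ih =>
      intro w
      rw [bb, Module.End.mul_apply]
      simp only [LinearMap.add_apply, Module.End.one_apply, LinearMap.smul_apply, Pi.add_apply,
        Pi.smul_apply, smul_eq_mul]
      exact S.add_mem (ih w) (S.mul_mem hy (hU k _ ih w))
  have hT : ∀ j ≤ m, ∀ w, tt (vv A m) z m j (dlt A m) w ∈ S := by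
    intro j hj
    induction j with
    | zero =>
      intro w
      simp only [tt, Module.End.one_apply, dlt]
      split_ifs
      · exact S.one_mem
      · exact S.zero_mem
    | succ j ih =>
      intro w
      rw [tt, Module.End.mul_apply]
      exact hB _ _ (hz j (by omega)) _ (ih (by omega)) w
  unfold PP
  rw [tt, Nat.sub_self, bb, one_mul]
  exact hT m le_rfl w

theorem PP_zero (m : ℕ) (w : Perm (Fin (m + 1))) :
    PP m (fun _ => (0 : A)) w = if w = 1 then 1 else 0 := by
  have hB : ∀ k, bb (vv A m) k (0 : A) = 1 := by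
    intro k
    induction k with
    | zero => rfl
    | succ k ih => rw [bb, ih]; simp
  have hT : ∀ j, tt (vv A m) (fun _ => (0 : A)) m j = 1 := by
    intro j
    induction j with
    | zero => rfl
    | succ j ih => rw [tt, ih, hB]; simp
  unfold PP
  rw [hT]
  rfl

/-! ### Evaluation at the longest element -/

theorem bb_eval_zero (m k : ℕ) (hk : k ≤ m) (y : A) (h : Perm (Fin (m + 1)) → A)
    (w : Perm (Fin (m + 1))) (c : Fin (m + 1)) (j : Fin (m + 1)) (hj : (j : ℕ) + k < m)
    (hwj : w j = c)
    (hs : ∀ w' : Perm (Fin (m + 1)), (∀ i : Fin (m + 1), (i : ℕ) + k < m → w' i = w i) →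
      w' (Fin.last m) ≠ c → h w' = 0) :
    bb (vv A m) k y h w = 0 := by
  induction k generalizing w with
  | zero =>
    simp only [bb, Module.End.one_apply]
    apply hs w (fun _ _ => rfl)
    intro h1
    have := w.injective (h1.trans hwj.symm)
    have h2 : (j : ℕ) = m := by rw [← this]; rfl
    omega
  | succ k ih =>
    have ha : (⟨m - 1 - k, by omega⟩ : Fin (m + 1)).val = m - 1 - k := rfl
    have hb : (⟨m - k, by omega⟩ : Fin (m + 1)).val = m - k := rfl
    generalize (⟨m - 1 - k, by omega⟩ : Fin (m + 1)) = a at ha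
    generalize (⟨m - k, by omega⟩ : Fin (m + 1)) = b at hb
    rw [bb, Module.End.mul_apply, vv_eq m k a b (by omega) (by omega)]
    simp only [LinearMap.add_apply, Module.End.one_apply, LinearMap.smul_apply, Pi.add_apply,
      Pi.smul_apply, smul_eq_mul, Uop_apply]
    rw [ih (by omega) w (by omega) hwj]
    · rw [zero_add]
      split_ifs
      · rw [ih (by omega) (w * swap a b) (by omega), mul_zero]
        · rw [Perm.mul_apply, swap_apply_of_ne_of_ne]
          · exact hwj
          · intro h; rw [h] at hj; omega
          · intro h; rw [h] at hj; omega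
        · intro w' hw' hc
          apply hs w' _ hc
          intro i hi
          rw [hw' i (by omega), Perm.mul_apply, swap_apply_of_ne_of_ne]
          · intro h; rw [h] at hi; omega
          · intro h; rw [h] at hi; omega
      · rw [mul_zero]
    · intro w' hw' hc
      exact hs w' (fun i hi => hw' i (by omega)) hc

theorem bb_eval (m k : ℕ) (hk : k ≤ m) (y : A) (h : Perm (Fin (m + 1)) → A)
    (w : Perm (Fin (m + 1))) (c : Fin (m + 1)) (p : Fin (m + 1)) (hp : (p : ℕ) + k = m)
    (hwp : w p = c) (hmax : ∀ a : Fin (m + 1), p < a → w a < c)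
    (hs : ∀ w' : Perm (Fin (m + 1)), (∀ i : Fin (m + 1), (i : ℕ) + k < m → w' i = w i) →
      w' (Fin.last m) ≠ c → h w' = 0) :
    ∃ w' : Perm (Fin (m + 1)), (∀ i : Fin (m + 1), (i : ℕ) + k < m → w' i = w i) ∧
      (∀ a b : Fin (m + 1), p ≤ a → (b : ℕ) = a + 1 → w' a = w b) ∧ w' (Fin.last m) = c ∧
      bb (vv A m) k y h w = y ^ k * h w' := by
  induction k generalizing w p with
  | zero =>
    refine ⟨w, fun _ _ => rfl, ?_, ?_, ?_⟩
    · intro a b ha hb
      have := b.2
      have : (p : ℕ) ≤ a := ha
      omega
    · rw [← hwp]; congr 1; apply Fin.ext; simp; omega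
    · simp [bb]
  | succ k ih =>
    have hb : (⟨m - k, by omega⟩ : Fin (m + 1)).val = m - k := rfl
    generalize (⟨m - k, by omega⟩ : Fin (m + 1)) = b at hb
    rw [bb, Module.End.mul_apply, vv_eq m k p b (by omega) (by omega)]
    simp only [LinearMap.add_apply, Module.End.one_apply, LinearMap.smul_apply, Pi.add_apply,
      Pi.smul_apply, smul_eq_mul, Uop_apply]
    rw [bb_eval_zero m k (by omega) y h w c p (by omega) hwp
      (fun w' hw' hc => hs w' (fun i hi => hw' i (by omega)) hc), zero_add]
    have hpb : p < b := by rw [Fin.lt_def]; omega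
    rw [if_pos (by rw [hwp]; exact hmax b hpb)]
    obtain ⟨w', h1, h2, h3, h4⟩ := ih (by omega) (w * swap p b) b (by omega)
      (by rw [Perm.mul_apply, swap_apply_right, hwp])
      (by
        intro a ha
        rw [Perm.mul_apply, swap_apply_of_ne_of_ne (ne_of_gt (hpb.trans ha)) (ne_of_gt ha)]
        exact hmax a (hpb.trans ha))
      (by
        intro w' hw' hc
        apply hs w' _ hc
        intro i hi
        rw [hw' i (by omega), Perm.mul_apply, swap_apply_of_ne_of_ne]
        · intro h; rw [h] at hi; omega
        · intro h; rw [h] at hi; omega)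
    refine ⟨w', ?_, ?_, h3, ?_⟩
    · intro i hi
      rw [h1 i (by omega), Perm.mul_apply, swap_apply_of_ne_of_ne]
      · intro h; rw [h] at hi; omega
      · intro h; rw [h] at hi; omega
    · intro a b' ha hab'
      rcases eq_or_lt_of_le ha with h | h
      · subst h
        have : b' = b := by apply Fin.ext; omega
        subst this
        rw [h1 p (by omega), Perm.mul_apply, swap_apply_left]
      · have hba : b ≤ a := by rw [Fin.le_def]; rw [Fin.lt_def] at h; omega
        rw [h2 a b' hba hab', Perm.mul_apply, swap_apply_of_ne_of_ne]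
        · intro h'; rw [h'] at hab'; rw [Fin.lt_def] at h; omega
        · intro h'; rw [h'] at hab'; rw [Fin.le_def] at hba; omega
    · rw [h4, pow_succ]; ring

/-- `w` is increasing on the positions `≥ j`. -/
def IncFrom {m : ℕ} (j : ℕ) (w : Perm (Fin (m + 1))) : Prop :=
  ∀ a b : Fin (m + 1), j ≤ (a : ℕ) → a < b → w a < w b

theorem incFrom_zero {m : ℕ} (w : Perm (Fin (m + 1))) : IncFrom 0 w ↔ w = 1 := by
  constructor
  · intro h
    have hm : StrictMono w := fun a b hab => h a b (Nat.zero_le _) hab
    apply Equiv.ext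
    intro x
    have : (w : Fin (m + 1) → Fin (m + 1)) = id := by
      have := StrictMono.range_inj hm (strictMono_id (α := Fin (m + 1)))
      apply this.1
      simp [Set.range_id, w.surjective.range_eq]
    exact congrFun this x
  · rintro rfl a b _ hab
    exact hab

theorem tt_eval (m : ℕ) (z : ℕ → A) (j : ℕ) (hj : j ≤ m) (w : Perm (Fin (m + 1)))
    (hw : ∀ i : Fin (m + 1), (i : ℕ) < j → ((w i : Fin (m + 1)) : ℕ) = m - i) :
    tt (vv A m) z m j (dlt A m) w =
      open Classical in if IncFrom j w then ∏ i ∈ Finset.range j, z i ^ (m - i) else 0 := by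
  classical
  induction j generalizing w with
  | zero =>
    simp only [tt, Module.End.one_apply, Finset.range_zero, Finset.prod_empty, incFrom_zero, dlt]
  | succ j ih =>
    rw [tt, Module.End.mul_apply]
    have hp : (⟨j, by omega⟩ : Fin (m + 1)).val = j := rfl
    generalize (⟨j, by omega⟩ : Fin (m + 1)) = p at hp
    have hwp : ((w p : Fin (m + 1)) : ℕ) = m - j := by rw [hw p (by omega), hp]
    have hmax : ∀ a : Fin (m + 1), p < a → w a < w p := by
      intro a ha
      rw [Fin.lt_def, hwp]
      by_contra hcon
      rw [not_lt] at hcon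
      have h1 : m - (w a : ℕ) ≤ j := by omega
      have h2 : (w ⟨m - (w a : ℕ), by omega⟩ : Fin (m + 1)) = w a := by
        apply Fin.ext
        rw [hw _ (by simp; omega)]
        have := (w a).2
        simp
        omega
      have h3 := w.injective h2
      rw [← h3, Fin.lt_def] at ha
      simp at ha
      omega
    obtain ⟨w', h1, h2, h3, h4⟩ := bb_eval m (m - j) (by omega) (z j)
      (tt (vv A m) z m j (dlt A m)) w (w p) p (by omega) rfl hmax (by
        intro w' hw' hc
        rw [ih (by omega) w' (by
          intro i hi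
          rw [hw' i (by omega), hw i (by omega)])]
        rw [if_neg]
        intro hinc
        apply hc
        obtain ⟨a, ha⟩ := w'.surjective (w p)
        by_contra hne
        have ha' : ¬ (a : ℕ) < j := by
          intro hlt
          have := hw a (by omega)
          have h5 := hw' a (by omega)
          rw [ha] at h5
          have := w.injective h5
          rw [← this] at hlt
          omega
        have halast : a < Fin.last m := by
          rw [Fin.lt_def]
          have := a.2
          have h6 : (a : ℕ) ≠ m := by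
            intro h6
            apply hne
            rw [← ha]; congr 1; apply Fin.ext; simp [h6]
          simp; omega
        have h7 := hinc a (Fin.last m) (by omega) halast
        rw [ha, Fin.lt_def, hwp] at h7
        have h8 := (w' (Fin.last m)).2
        have h9 : (w' ⟨m - (w' (Fin.last m) : ℕ), by omega⟩ : Fin (m + 1)) = w' (Fin.last m) := by
          apply Fin.ext
          rw [hw' _ (by simp; omega), hw _ (by simp; omega)]
          simp
          omega
        have h10 := w'.injective h9
        rw [Fin.ext_iff] at h10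
        simp at h10
        omega)
    rw [h4, ih (by omega) w' (by
      intro i hi
      rw [h1 i (by omega), hw i (by omega)])]
    have hiff : IncFrom j w' ↔ IncFrom (j + 1) w := by
      constructor
      · intro hinc a b ha hab
        have e1 : w' ⟨(a : ℕ) - 1, by omega⟩ = w a :=
          h2 _ _ (by rw [Fin.le_def]; simp; omega) (by simp; omega)
        have e2 : w' ⟨(b : ℕ) - 1, by omega⟩ = w b :=
          h2 _ _ (by rw [Fin.le_def]; rw [Fin.lt_def] at hab; simp; omega)
            (by rw [Fin.lt_def] at hab; simp; omega)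
        rw [← e1, ← e2]
        apply hinc
        · simp; omega
        · rw [Fin.lt_def] at hab ⊢; simp; omega
      · intro hinc a b ha hab
        have ha2 := a.2
        have hb2 := b.2
        rw [Fin.lt_def] at hab
        have e1 : w' a = w ⟨(a : ℕ) + 1, by omega⟩ := h2 _ _ (by rw [Fin.le_def]; omega) (by simp)
        by_cases hb : (b : ℕ) = m
        · have : b = Fin.last m := by apply Fin.ext; simp [hb]
          rw [this, h3, e1]
          apply hmax
          rw [Fin.lt_def]; simp; omega
        · have e2 : w' b = w ⟨(b : ℕ) + 1, by omega⟩ :=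
            h2 _ _ (by rw [Fin.le_def]; omega) (by simp)
          rw [e1, e2]
          apply hinc
          · simp; omega
          · rw [Fin.lt_def]; simp; omega
    by_cases hinc : IncFrom j w'
    · rw [if_pos hinc, if_pos (hiff.1 hinc), Finset.prod_range_succ, mul_comm]
    · rw [if_neg hinc, if_neg (fun h => hinc (hiff.2 h)), mul_zero]

theorem PP_top (m : ℕ) (z : ℕ → A) :
    PP m z (Fin.revPerm) = ∏ i ∈ Finset.range m, z i ^ (m - i) := by
  unfold PP
  rw [tt, Nat.sub_self, bb, one_mul, tt_eval m z m le_rfl, if_pos]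
  · intro a b ha hab
    rw [Fin.lt_def] at hab
    have := b.2
    omega
  · intro i hi
    simp [Fin.revPerm_apply, Fin.val_rev]

end Concrete
end Pool.Agent.Schubert
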