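import Mathlib
import Pool.Agent.Schubert.SchubertPP

set_option autoImplicit false

namespace Pool.Agent.Schubert
open Equiv MvPolynomial

theorem degree_sub_single {μ : ℕ →₀ ℕ} {i d : ℕ} (hi : i ∈ μ.support) (hμ : μ.degree = d + 1) :
    (μ - Finsupp.single i 1).degree = d := by
  have h1 : Finsupp.single i 1 ≤ μ := by
    rw [Finsupp.single_le_iff]
    exact Nat.one_le_iff_ne_zero.2 (Finsupp.mem_support_iff.1 hi)
  have h2 : (μ - Finsupp.single i 1) + Finsupp.single i 1 = μ := tsub_add_cancel_of_le h1
  have h3 := congrArg Finsupp.degree h2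
  rw [map_add, Finsupp.degree_single, hμ] at h3
  omega

theorem sep {R : Type*} [CommRing R] (m : ℕ) (H : MvPolynomial ℕ R)
    (hv : ∀ μ : ℕ →₀ ℕ, coeff μ H ≠ 0 → ∀ k, m ≤ k → μ k = 0)
    (g : ℕ → MvPolynomial ℕ R)
    (hg : ∀ i < m, (X i - X (i + 1)) * g i = H - rename (swap i (i + 1)) H)
    (hD : ∀ i < m, ∀ μ, coeff μ H = 0 → coeff μ (g i) = 0)
    (h0 : coeff 0 H = 0) : H = 0 := by
  have main : ∀ d : ℕ, ∀ μ : ℕ →₀ ℕ, μ.degree = d → coeff μ H = 0 := by
    intro d
    induction d with
    | zero =>
      intro μ hμ
      rw [Finsupp.degree_eq_zero_iff] at hμ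
      rw [hμ]; exact h0
    | succ d ih =>
      have hsw : ∀ i < m, ∀ μ : ℕ →₀ ℕ, μ.degree = d + 1 →
          coeff μ H = coeff (μ.mapDomain (swap i (i + 1))) H := by
        intro i hi μ hμ
        have hz : ∀ j, coeff μ (X j * g i) = 0 := by
          intro j
          rw [coeff_X_mul']
          split_ifs with hj
          · exact hD i hi _ (ih _ (degree_sub_single hj hμ))
          · rfl
        have h1 := congrArg (coeff μ) (hg i hi)
        rw [sub_mul, coeff_sub, hz, hz, sub_zero, coeff_sub] at h1
        have h2 : μ = (μ.mapDomain (swap i (i + 1))).mapDomain (swap i (i + 1)) := by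
          rw [← Finsupp.mapDomain_comp]
          have : (swap i (i + 1) : ℕ → ℕ) ∘ (swap i (i + 1)) = id := by
            funext x; simp
          rw [this, Finsupp.mapDomain_id]
        have h3 : coeff μ (rename (swap i (i + 1)) H) =
            coeff (μ.mapDomain (swap i (i + 1))) H := by
          conv_lhs => rw [h2]
          rw [coeff_rename_mapDomain _ (swap i (i + 1)).injective]
        rw [← h3]
        exact sub_eq_zero.1 h1.symm
      have hk : ∀ k ≤ m, ∀ μ : ℕ →₀ ℕ, μ.degree = d + 1 → μ (m - k) ≠ 0 → coeff μ H = 0 := by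
        intro k
        induction k with
        | zero =>
          intro _ μ hμ hne
          by_contra hc
          exact hne (hv μ hc m le_rfl)
        | succ k ihk =>
          intro hkm μ hμ hne
          rw [hsw (m - (k + 1)) (by omega) μ hμ]
          apply ihk (by omega)
          · rw [Finsupp.degree_mapDomain, hμ]
          · have e1 : m - k = swap (m - (k + 1)) (m - (k + 1) + 1) (m - (k + 1)) := by
              rw [swap_apply_left]; omega
            rw [e1, Finsupp.mapDomain_apply (swap _ _).injective]
            exact hne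
      intro μ hμ
      have hne : μ ≠ 0 := by
        rintro rfl
        simp at hμ
      obtain ⟨j, hj⟩ := Finsupp.ne_iff.1 hne
      by_cases hjm : j ≤ m
      · apply hk (m - j) (by omega) μ hμ
        rwa [show m - (m - j) = j by omega]
      · by_contra hc
        exact hj (hv μ hc j (by omega))
  ext μ
  rw [main _ μ rfl, coeff_zero]

end Pool.Agent.Schubert
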