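import Mathlib
import Pool.Agent.Schubert.Separation

set_option autoImplicit false

namespace Pool.Agent.Schubert
open Equiv MvPolynomial

/-! ### The kernel `∏_{i+j ≤ m-1} (z_i + y_j)` -/

section Kernel
variable {B : Type*} [CommRing B]

def FF (m : ℕ) (z y : ℕ → B) : B :=
  ∏ j ∈ Finset.range (m + 1), ∏ i ∈ Finset.range (m - j), (z i + y j)

def FQ (m j : ℕ) (z y : ℕ → B) : B :=
  (∏ i ∈ Finset.range (m - 1 - j), (z i + y j)) *
    ∏ j' ∈ (Finset.range (m + 1)).erase j, ∏ i ∈ Finset.range (m - j'), (z i + y j')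

theorem FF_eq (m j : ℕ) (hj : j < m) (z y : ℕ → B) :
    FF m z y = (z (m - 1 - j) + y j) * FQ m j z y := by
  unfold FF FQ
  rw [← Finset.mul_prod_erase (Finset.range (m + 1)) _ (Finset.mem_range.2 (by omega : j < m + 1)),
    show m - j = (m - 1 - j) + 1 by omega, Finset.prod_range_succ]
  ring

theorem FQ_swap_y (m j : ℕ) (hj : j < m) (z y : ℕ → B) :
    FQ m j z (y ∘ swap j (j + 1)) = FQ m j z y := by
  unfold FQ
  have hmem : j + 1 ∈ (Finset.range (m + 1)).erase j := by
    rw [Finset.mem_erase, Finset.mem_range]; omega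
  rw [← Finset.mul_prod_erase _ _ hmem, ← Finset.mul_prod_erase _ _ hmem]
  have h1 : ∏ j' ∈ ((Finset.range (m + 1)).erase j).erase (j + 1),
      ∏ i ∈ Finset.range (m - j'), (z i + (y ∘ swap j (j + 1)) j') =
      ∏ j' ∈ ((Finset.range (m + 1)).erase j).erase (j + 1),
      ∏ i ∈ Finset.range (m - j'), (z i + y j') := by
    apply Finset.prod_congr rfl
    intro j' hj'
    rw [Finset.mem_erase, Finset.mem_erase] at hj'
    simp only [Function.comp]
    rw [swap_apply_of_ne_of_ne hj'.2.1 hj'.1]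
  rw [h1]
  simp only [Function.comp, swap_apply_left, swap_apply_right]
  rw [show m - (j + 1) = m - 1 - j by omega]
  ring

theorem row_swap (i₀ k : ℕ) (hk : k ≤ i₀ ∨ i₀ + 2 ≤ k) (z : ℕ → B) (c : B) :
    ∏ i ∈ Finset.range k, ((z ∘ swap i₀ (i₀ + 1)) i + c) = ∏ i ∈ Finset.range k, (z i + c) := by
  apply Finset.prod_equiv (swap i₀ (i₀ + 1))
  · intro i
    simp only [Finset.mem_range]
    rcases eq_or_ne i i₀ with rfl | h1
    · rw [swap_apply_left]; omega
    · rcases eq_or_ne i (i₀ + 1) with rfl | h2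
      · rw [swap_apply_right]; omega
      · rw [swap_apply_of_ne_of_ne h1 h2]
  · intro i _
    simp

theorem FQ_swap_z (m j : ℕ) (hj : j < m) (z y : ℕ → B) :
    FQ m j (z ∘ swap (m - 1 - j) (m - 1 - j + 1)) y = FQ m j z y := by
  unfold FQ
  congr 1
  · exact row_swap _ _ (Or.inl le_rfl) z _
  · apply Finset.prod_congr rfl
    intro j' hj'
    rw [Finset.mem_erase, Finset.mem_range] at hj'
    exact row_swap _ _ (by omega) z _

end Kernel

/-! ### The Cauchy identity -/

section Cauchy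

/-- The polynomials `P w ∈ ℤ[x_0, x_1, …]`. -/
noncomputable def P (m : ℕ) (w : Perm (Fin (m + 1))) : MvPolynomial ℕ ℤ := PP m X w

/-- The same polynomials with coefficients in `ℤ[x]` (in the outer variables `y`). -/
noncomputable def Q (m : ℕ) (w : Perm (Fin (m + 1))) : MvPolynomial ℕ (MvPolynomial ℕ ℤ) :=
  PP m X w

theorem Q_eq (m : ℕ) (w : Perm (Fin (m + 1))) :
    Q m w = map (C : ℤ →+* MvPolynomial ℕ ℤ) (P m w) := by
  unfold Q P
  rw [map_PP]
  congr 1
  funext i
  simp

theorem rename_PP {R : Type*} [CommRing R] (m : ℕ) (f : ℕ → ℕ) (w : Perm (Fin (m + 1))) :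
    rename f (PP m (X : ℕ → MvPolynomial ℕ R) w) = PP m (X ∘ f) w := by
  have := map_PP (rename f : MvPolynomial ℕ R →ₐ[R] MvPolynomial ℕ R).toRingHom m X w
  simpa [Function.comp_def] using this

noncomputable def GG (m : ℕ) : MvPolynomial ℕ (MvPolynomial ℕ ℤ) :=
  ∑ u : Perm (Fin (m + 1)), Q m u * C (P m (u * Fin.revPerm))

/-- The divided difference of `GG` in the outer variables `j, j+1`. -/
noncomputable def gG (m j : ℕ) (h : j < m) : MvPolynomial ℕ (MvPolynomial ℕ ℤ) :=
  ∑ u : Perm (Fin (m + 1)),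
    (if u ⟨j + 1, by omega⟩ < u ⟨j, by omega⟩ then Q m (u * swap ⟨j, by omega⟩ ⟨j + 1, by omega⟩)
      else 0) * C (P m (u * Fin.revPerm))

theorem gG_outer (m j : ℕ) (h : j < m) :
    (X j - X (j + 1)) * gG m j h = GG m - rename (swap j (j + 1)) (GG m) := by
  unfold gG GG
  rw [Finset.mul_sum, map_sum, ← Finset.sum_sub_distrib]
  apply Finset.sum_congr rfl
  intro u _
  rw [map_mul, rename_C, ← sub_mul, ← mul_assoc]
  congr 1
  unfold Q
  rw [rename_PP, ← PP_swap m X j ⟨j, by omega⟩ ⟨j + 1, by omega⟩ rfl rfl]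

theorem gG_eq (m j : ℕ) (h : j < m) :
    gG m j h = ∑ u : Perm (Fin (m + 1)), Q m u *
      C (if (u * Fin.revPerm : Perm (Fin (m + 1))) ⟨m - 1 - j + 1, by omega⟩ <
          (u * Fin.revPerm : Perm (Fin (m + 1))) ⟨m - 1 - j, by omega⟩
        then P m (u * Fin.revPerm * swap ⟨m - 1 - j, by omega⟩ ⟨m - 1 - j + 1, by omega⟩) else 0) := by
  unfold gG
  have e1 : (Fin.revPerm : Perm (Fin (m + 1))) ⟨m - 1 - j + 1, by omega⟩ = ⟨j, by omega⟩ := by
    apply Fin.ext; simp [Fin.revPerm_apply, Fin.val_rev]; omega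
  have e2 : (Fin.revPerm : Perm (Fin (m + 1))) ⟨m - 1 - j, by omega⟩ = ⟨j + 1, by omega⟩ := by
    apply Fin.ext; simp [Fin.revPerm_apply, Fin.val_rev]; omega
  rw [← Equiv.sum_comp (Equiv.mulRight (swap (⟨j, by omega⟩ : Fin (m + 1)) ⟨j + 1, by omega⟩))]
  apply Finset.sum_congr rfl
  intro u _
  simp only [Equiv.coe_mulRight, Perm.mul_apply, swap_apply_left, swap_apply_right, e1, e2]
  have e3 : u * swap (⟨j, by omega⟩ : Fin (m + 1)) ⟨j + 1, by omega⟩ *
      swap (⟨j, by omega⟩ : Fin (m + 1)) ⟨j + 1, by omega⟩ = u := by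
    rw [mul_assoc, swap_mul_self, mul_one]
  have e4 : u * swap (⟨j, by omega⟩ : Fin (m + 1)) ⟨j + 1, by omega⟩ * Fin.revPerm =
      u * Fin.revPerm * swap (⟨m - 1 - j, by omega⟩ : Fin (m + 1)) ⟨m - 1 - j + 1, by omega⟩ := by
    have := Equiv.mul_swap_eq_swap_mul (Fin.revPerm : Perm (Fin (m + 1)))
      (⟨m - 1 - j, by omega⟩ : Fin (m + 1)) ⟨m - 1 - j + 1, by omega⟩
    rw [mul_assoc u Fin.revPerm, this, e1, e2, swap_comm, mul_assoc]
  rw [e3, e4]
  split_ifs <;> simp

theorem gG_inner (m j : ℕ) (h : j < m) :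
    (C (X (m - 1 - j)) - C (X (m - 1 - j + 1))) * gG m j h =
      GG m - map (rename (swap (m - 1 - j) (m - 1 - j + 1)) :
        MvPolynomial ℕ ℤ →ₐ[ℤ] MvPolynomial ℕ ℤ).toRingHom (GG m) := by
  rw [gG_eq]
  unfold GG
  rw [Finset.mul_sum, map_sum, ← Finset.sum_sub_distrib]
  apply Finset.sum_congr rfl
  intro u _
  rw [map_mul]
  have e1 : map (rename (swap (m - 1 - j) (m - 1 - j + 1)) :
        MvPolynomial ℕ ℤ →ₐ[ℤ] MvPolynomial ℕ ℤ).toRingHom (Q m u) = Q m u := by
    rw [Q_eq, map_map]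
    have e0 : (rename (swap (m - 1 - j) (m - 1 - j + 1)) :
        MvPolynomial ℕ ℤ →ₐ[ℤ] MvPolynomial ℕ ℤ).toRingHom.comp
          (C : ℤ →+* MvPolynomial ℕ ℤ) = C := Subsingleton.elim _ _
    rw [e0]
  have e2 := PP_swap m (X : ℕ → MvPolynomial ℕ ℤ) (m - 1 - j)
    (⟨m - 1 - j, by omega⟩ : Fin (m + 1)) ⟨m - 1 - j + 1, by omega⟩ rfl rfl (u * Fin.revPerm)
  rw [← rename_PP] at e2
  rw [e1, map_C, ← C_sub, mul_left_comm, ← C_mul]
  unfold P
  rw [← e2]
  simp only [AlgHom.toRingHom_eq_coe, RingHom.coe_coe, map_sub, mul_sub]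

noncomputable def cx (i : ℕ) : MvPolynomial ℕ (MvPolynomial ℕ ℤ) := C (X i)

noncomputable def cy (i : ℕ) : MvPolynomial ℕ (MvPolynomial ℕ ℤ) := X i

theorem FF_outer (m j : ℕ) (h : j < m) :
    (X j - X (j + 1)) * FQ m j cx cy =
      FF m cx cy - rename (swap j (j + 1)) (FF m cx cy) := by
  have e : rename (swap j (j + 1))
      (FF m cx cy) =
      FF m cx (cy ∘ swap j (j + 1)) := by
    unfold FF cx cy
    simp [map_prod, rename_X]
  rw [e, FF_eq m j h, FF_eq m j h, FQ_swap_y m j h]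
  simp only [Function.comp, swap_apply_left, cy]
  ring

theorem FF_inner (m j : ℕ) (h : j < m) :
    (C (X (m - 1 - j)) - C (X (m - 1 - j + 1))) *
      FQ m j cx cy =
      FF m cx cy - map (rename (swap (m - 1 - j) (m - 1 - j + 1)) :
        MvPolynomial ℕ ℤ →ₐ[ℤ] MvPolynomial ℕ ℤ).toRingHom (FF m cx cy) := by
  have e : map (rename (swap (m - 1 - j) (m - 1 - j + 1)) :
        MvPolynomial ℕ ℤ →ₐ[ℤ] MvPolynomial ℕ ℤ).toRingHom
      (FF m cx cy) =
      FF m (cx ∘ swap (m - 1 - j) (m - 1 - j + 1)) cy := by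
    unfold FF cx cy
    simp [map_prod]
  rw [e, FF_eq m j h, FF_eq m j h, FQ_swap_z m j h]
  simp only [Function.comp, swap_apply_left, cx]
  ring

theorem supported_coeff {R : Type*} [CommRing R] (m : ℕ) (p : MvPolynomial ℕ R)
    (hp : p ∈ supported R {k | k < m}) (μ : ℕ →₀ ℕ) (hμ : coeff μ p ≠ 0) (k : ℕ) (hk : m ≤ k) :
    μ k = 0 := by
  by_contra hne
  rw [mem_supported] at hp
  have h1 : k ∈ p.vars := by
    rw [mem_vars_iff_mem_support]
    exact ⟨μ, by rwa [mem_support_iff], by rwa [Finsupp.mem_support_iff]⟩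
  have h2 := hp h1
  simp only [Set.mem_ofPred_eq] at h2
  omega

theorem PP_supported {R : Type*} [CommRing R] [Nontrivial R] (m : ℕ) (w : Perm (Fin (m + 1))) :
    PP m (X : ℕ → MvPolynomial ℕ R) w ∈ supported R {k | k < m} := by
  apply PP_mem m X (supported R {k | k < m}).toSubsemiring
  intro i hi
  exact X_mem_supported.2 hi

theorem cauchy (m : ℕ) : FF m cx cy = GG m := by
  rw [← sub_eq_zero]
  apply sep m _ _ (fun j => if h : j < m then FQ m j cx cy - gG m j h else 0)
  · intro i hi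
    simp only [hi, dif_pos]
    rw [mul_sub, FF_outer m i hi, gG_outer m i hi, map_sub]
    ring
  · intro j hj μ hμ
    simp only [hj, dif_pos]
    have h1 : (C (X (m - 1 - j)) - C (X (m - 1 - j + 1))) *
        (FQ m j cx cy - gG m j hj) = (FF m cx cy - GG m) -
          map (rename (swap (m - 1 - j) (m - 1 - j + 1)) :
            MvPolynomial ℕ ℤ →ₐ[ℤ] MvPolynomial ℕ ℤ).toRingHom
              (FF m cx cy - GG m) := by
      rw [mul_sub, FF_inner m j hj, gG_inner m j hj, map_sub]
      ring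
    have h2 := congrArg (coeff μ) h1
    rw [coeff_sub, coeff_map, hμ, map_zero, sub_zero, ← C_sub, coeff_C_mul] at h2
    rcases mul_eq_zero.1 h2 with h3 | h3
    · exfalso
      rw [sub_eq_zero] at h3
      have := X_injective h3
      omega
    · exact h3
  · rw [coeff_sub, sub_eq_zero]
    have e1 : coeff 0 (FF m cx cy) =
        ∏ i ∈ Finset.range m, X i ^ (m - i) := by
      have : ∀ p : MvPolynomial ℕ (MvPolynomial ℕ ℤ), coeff 0 p = constantCoeff p := fun p => rfl
      rw [this]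
      unfold FF cx cy
      simp only [map_prod, map_add, constantCoeff_C, constantCoeff_X, add_zero]
      rw [Finset.prod_comm' (t' := Finset.range m) (s' := fun i => Finset.range (m - i))]
      · apply Finset.prod_congr rfl
        intro i _
        rw [Finset.prod_const, Finset.card_range]
      · intro x y
        simp only [Finset.mem_range]
        omega
    have e2 : coeff 0 (GG m) = P m Fin.revPerm := by
      have : ∀ p : MvPolynomial ℕ (MvPolynomial ℕ ℤ), coeff 0 p = constantCoeff p := fun p => rfl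
      rw [this]
      unfold GG
      rw [map_sum]
      have h3 : ∀ u : Perm (Fin (m + 1)), constantCoeff (Q m u) = if u = 1 then 1 else 0 := by
        intro u
        unfold Q
        rw [map_PP]
        simp only [constantCoeff_X]
        exact PP_zero m u
      simp only [map_mul, constantCoeff_C, h3, ite_mul, one_mul, zero_mul, Finset.sum_ite_eq',
        Finset.mem_univ, if_true]
    rw [e1, e2]
    unfold P
    rw [PP_top]
  · intro μ hμ k hk
    refine supported_coeff m _ ?_ μ hμ k hk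
    apply Subalgebra.sub_mem
    · unfold FF
      apply Subalgebra.prod_mem
      intro j hj
      rw [Finset.mem_range] at hj
      apply Subalgebra.prod_mem
      intro i hi
      rw [Finset.mem_range] at hi
      apply Subalgebra.add_mem
      · exact Subalgebra.algebraMap_mem _ _
      · exact X_mem_supported.2 (by simp only [Set.mem_ofPred_eq]; omega)
    · unfold GG
      apply Subalgebra.sum_mem
      intro u _
      apply Subalgebra.mul_mem
      · exact PP_supported m u
      · exact Subalgebra.algebraMap_mem _ _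

end Cauchy
end Pool.Agent.Schubert
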