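import Mathlib
import Pool.Agent.Schubert.Cauchy

set_option autoImplicit false

namespace Pool.Agent.Schubert
open Equiv MvPolynomial

/-- The elementary symmetric polynomial `e^k_j` of degree `j` in `x_0, …, x_{k-1}`. -/
noncomputable def esym (k j : ℕ) : MvPolynomial ℕ ℤ :=
  ∑ s ∈ (Finset.range k).powersetCard j, ∏ t ∈ s, X t

theorem row_expand (k j : ℕ) :
    ∏ i ∈ Finset.range k, (cx i + cy j) =
      ∑ r ∈ Finset.range (k + 1), C (esym k (k - r)) * X j ^ r := by
  rw [Finset.prod_add, Finset.sum_powerset, Finset.card_range,
    ← Finset.sum_range_reflect]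
  apply Finset.sum_congr rfl
  intro r hr
  rw [Finset.mem_range] at hr
  rw [show k + 1 - 1 - r = k - r by omega]
  unfold esym
  rw [map_sum, Finset.sum_mul]
  apply Finset.sum_congr rfl
  intro s hs
  rw [Finset.mem_powersetCard] at hs
  unfold cx cy
  rw [Finset.prod_const, Finset.card_sdiff_of_subset hs.1, Finset.card_range, hs.2, map_prod,
    show k - (k - r) = r by omega]

open Classical in
theorem coeff_prod_rows {A : Type*} [CommRing A] (t : ℕ) (d : ℕ → ℕ) (c : ℕ → ℕ → A) (b : ℕ →₀ ℕ) :
    coeff b (∏ j ∈ Finset.range t, ∑ r ∈ Finset.range (d j + 1), C (c j r) * X j ^ r) =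
      if (∀ j < t, b j ≤ d j) ∧ (∀ j, t ≤ j → b j = 0) then ∏ j ∈ Finset.range t, c j (b j)
      else 0 := by
  induction t generalizing b with
  | zero =>
    simp only [Finset.range_zero, Finset.prod_empty, coeff_one]
    by_cases h : (0 : ℕ →₀ ℕ) = b
    · subst h; simp
    · rw [if_neg h, if_neg]
      intro h1
      apply h
      ext j
      simp [h1.2 j (Nat.zero_le _)]
  | succ t ih =>
    rw [Finset.prod_range_succ, Finset.mul_sum, coeff_sum]
    have key : ∀ r, coeff b ((∏ j ∈ Finset.range t, ∑ r ∈ Finset.range (d j + 1),
        C (c j r) * X j ^ r) * (C (c t r) * X t ^ r)) =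
        if r = b t then (if (∀ j < t, b j ≤ d j) ∧ (∀ j, t + 1 ≤ j → b j = 0) then
          (∏ j ∈ Finset.range t, c j (b j)) * c t (b t) else 0) else 0 := by
      intro r
      have e1 : (C (c t r) * X t ^ r : MvPolynomial ℕ A) = monomial (Finsupp.single t r) (c t r) := by
        rw [X_pow_eq_monomial, C_mul_monomial, mul_one]
      rw [e1, coeff_mul_monomial', ih]
      by_cases h1 : r = b t
      · rw [if_pos h1, if_pos (by rw [Finsupp.single_le_iff]; omega)]
        have e2 : ((∀ j < t, (b - Finsupp.single t r) j ≤ d j) ∧
            (∀ j, t ≤ j → (b - Finsupp.single t r) j = 0)) ↔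
            ((∀ j < t, b j ≤ d j) ∧ (∀ j, t + 1 ≤ j → b j = 0)) := by
          constructor
          · rintro ⟨h2, h3⟩
            refine ⟨fun j hj => ?_, fun j hj => ?_⟩
            · have := h2 j hj
              rwa [Finsupp.tsub_apply, Finsupp.single_apply, if_neg (by omega), tsub_zero] at this
            · have := h3 j (by omega)
              rwa [Finsupp.tsub_apply, Finsupp.single_apply, if_neg (by omega), tsub_zero] at this
          · rintro ⟨h2, h3⟩
            refine ⟨fun j hj => ?_, fun j hj => ?_⟩
            · rw [Finsupp.tsub_apply, Finsupp.single_apply, if_neg (by omega), tsub_zero]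
              exact h2 j hj
            · rcases Nat.eq_or_lt_of_le hj with h4 | h4
              · subst h4
                rw [Finsupp.tsub_apply, Finsupp.single_apply, if_pos rfl, h1, tsub_self]
              · rw [Finsupp.tsub_apply, Finsupp.single_apply, if_neg (by omega), tsub_zero]
                exact h3 j h4
        by_cases h2 : (∀ j < t, b j ≤ d j) ∧ (∀ j, t + 1 ≤ j → b j = 0)
        · rw [if_pos (e2.2 h2), if_pos h2, h1]
          congr 1
          apply Finset.prod_congr rfl
          intro j hj
          rw [Finset.mem_range] at hj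
          rw [Finsupp.tsub_apply, Finsupp.single_apply, if_neg (by omega), tsub_zero]
        · rw [if_neg (fun h => h2 (e2.1 h)), if_neg h2, zero_mul]
      · rw [if_neg h1]
        split_ifs with h2 h3
        · exfalso
          have h4 := h3.2 t le_rfl
          rw [Finsupp.tsub_apply, Finsupp.single_apply, if_pos rfl] at h4
          rw [Finsupp.single_le_iff] at h2
          omega
        · rw [zero_mul]
        · rfl
    simp only [key, Finset.sum_ite_eq', Finset.mem_range]
    by_cases h1 : b t < d t + 1
    · rw [if_pos h1]
      have e3 : ((∀ j < t, b j ≤ d j) ∧ (∀ j, t + 1 ≤ j → b j = 0)) ↔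
          ((∀ j < t + 1, b j ≤ d j) ∧ (∀ j, t + 1 ≤ j → b j = 0)) := by
        constructor
        · rintro ⟨h2, h3⟩
          refine ⟨fun j hj => ?_, h3⟩
          rcases Nat.lt_succ_iff_lt_or_eq.1 hj with h4 | h4
          · exact h2 j h4
          · subst h4; omega
        · rintro ⟨h2, h3⟩
          exact ⟨fun j hj => h2 j (by omega), h3⟩
      by_cases h2 : (∀ j < t, b j ≤ d j) ∧ (∀ j, t + 1 ≤ j → b j = 0)
      · rw [if_pos h2, if_pos (e3.1 h2), Finset.prod_range_succ]
      · rw [if_neg h2, if_neg (fun h => h2 (e3.2 h))]
    · rw [if_neg h1, if_neg]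
      rintro ⟨h2, _⟩
      have := h2 t (by omega)
      omega

/-- Nonnegative expansion of products of elementary symmetric polynomials in the `P m u`. -/
theorem sem_expand (m : ℕ) (a : ℕ → ℕ) (ha : ∀ k ≤ m, a k ≤ k) :
    ∃ M : Perm (Fin (m + 1)) → ℤ, (∀ u, 0 ≤ M u) ∧
      ∏ k ∈ Finset.range (m + 1), esym k (a k) = ∑ u, C (M u) * P m u := by
  set b : ℕ →₀ ℕ := Finsupp.onFinset (Finset.range (m + 1))
    (fun j => if j < m + 1 then (m - j) - a (m - j) else 0) (by
      intro j hj
      rw [Finset.mem_range]
      by_contra h
      exact hj (if_neg h)) with hb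
  have hbj : ∀ j < m + 1, b j = (m - j) - a (m - j) := by
    intro j hj
    rw [hb, Finsupp.onFinset_apply, if_pos hj]
  have hbj' : ∀ j, m + 1 ≤ j → b j = 0 := by
    intro j hj
    rw [hb, Finsupp.onFinset_apply, if_neg (by omega)]
  have h1 : coeff b (FF m cx cy) = coeff b (GG m) := by
    have := cauchy m
    rw [← this]
  have h2 : coeff b (FF m cx cy) = ∏ k ∈ Finset.range (m + 1), esym k (a k) := by
    unfold FF
    simp only [row_expand]
    rw [coeff_prod_rows (m + 1) (fun j => m - j) (fun j r => esym (m - j) (m - j - r)) b, if_pos]
    · rw [← Finset.prod_range_reflect]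
      apply Finset.prod_congr rfl
      intro j hj
      rw [Finset.mem_range] at hj
      rw [hbj _ (by omega)]
      have e1 : m - (m + 1 - 1 - j) = j := by omega
      have e2 := ha j (by omega)
      rw [e1, show j - (j - a j) = a j by omega]
    · refine ⟨fun j hj => ?_, hbj'⟩
      rw [hbj j hj]
      omega
  refine ⟨fun u => coeff b (P m (u * Fin.revPerm)), ?_, ?_⟩
  · intro u
    have : ∀ w, P m w ∈ ({ carrier := {p : MvPolynomial ℕ ℤ | ∀ μ, 0 ≤ coeff μ p}
                           mul_mem' := by
                            intro p q hp hq μ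
                            rw [coeff_mul]
                            exact Finset.sum_nonneg (fun x _ => mul_nonneg (hp _) (hq _))
                           one_mem' := by
                            intro μ
                            rw [coeff_one]
                            split_ifs <;> norm_num
                           add_mem' := by
                            intro p q hp hq μ
                            rw [coeff_add]
                            exact add_nonneg (hp μ) (hq μ)
                           zero_mem' := by
                            intro μ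
                            simp } : Subsemiring (MvPolynomial ℕ ℤ)) := by
      intro w
      apply PP_mem
      intro i _ μ
      rw [coeff_X]
      split_ifs <;> norm_num
    exact this (u * Fin.revPerm) b
  · rw [← h2, h1]
    unfold GG
    rw [coeff_sum, ← Equiv.sum_comp (Equiv.mulRight (Fin.revPerm : Perm (Fin (m + 1))))]
    apply Finset.sum_congr rfl
    intro u _
    have e : u * Fin.revPerm * Fin.revPerm = u := by
      apply Equiv.ext
      intro x
      simp
    rw [Equiv.coe_mulRight, mul_comm, coeff_C_mul, Q_eq, coeff_map, e, mul_comm]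

end Pool.Agent.Schubert
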