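import Mathlib
import Pool.Agent.Schubert.SemExpand

set_option autoImplicit false

namespace Pool.Agent.Schubert
open Equiv MvPolynomial

/-! ### Linear independence of the `P m u` -/

theorem P_swap (m : ℕ) (a b : Fin (m + 1)) (hab : (b : ℕ) = a + 1) (w : Perm (Fin (m + 1))) :
    P m w - rename (swap (a : ℕ) (b : ℕ)) (P m w) =
      (X (a : ℕ) - X (b : ℕ)) * (if w b < w a then P m (w * swap a b) else 0) := by
  have := PP_swap m (X : ℕ → MvPolynomial ℕ ℤ) a a b rfl hab w
  rw [← rename_PP, ← hab] at this
  exact this

theorem exists_descent {m : ℕ} {w : Perm (Fin (m + 1))} (hw : w ≠ 1) :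
    ∃ a b : Fin (m + 1), (b : ℕ) = a + 1 ∧ w b < w a := by
  by_contra hcon
  apply hw
  rw [← incFrom_zero]
  have hm : StrictMono w := by
    rw [Fin.strictMono_iff_lt_succ]
    intro i
    by_contra h
    apply hcon
    refine ⟨i.castSucc, i.succ, by simp, ?_⟩
    rcases lt_or_eq_of_le (not_lt.1 h) with h1 | h1
    · exact h1
    · exfalso
      have := w.injective h1
      rw [Fin.ext_iff] at this
      simp at this
  intro a b _ hab
  exact hm hab

theorem exists_ascent {m : ℕ} {w : Perm (Fin (m + 1))} (hw : w ≠ Fin.revPerm) :
    ∃ a b : Fin (m + 1), (b : ℕ) = a + 1 ∧ w a < w b := by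
  have h1 : w * Fin.revPerm ≠ 1 := by
    intro h
    apply hw
    apply Equiv.ext
    intro x
    have := Equiv.congr_fun h (Fin.rev x)
    simp only [Perm.mul_apply, Fin.revPerm_apply, Fin.rev_rev, Perm.one_apply] at this
    rw [this, Fin.revPerm_apply]
  obtain ⟨a, b, hab, h2⟩ := exists_descent h1
  refine ⟨Fin.rev b, Fin.rev a, ?_, ?_⟩
  · rw [Fin.val_rev, Fin.val_rev]
    have := b.2
    omega
  · simpa [Perm.mul_apply] using h2

theorem lex_lt_of_descent {m : ℕ} (w : Perm (Fin (m + 1))) (a b : Fin (m + 1))
    (hab : (b : ℕ) = a + 1) (h : w b < w a) :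
    toLex (⇑(w * swap a b)) < toLex (⇑w) := by
  refine ⟨a, ?_, ?_⟩
  · intro j hj
    have hjb : j ≠ b := by
      intro h'
      rw [h', Fin.lt_def] at hj
      omega
    simp only [Pi.toLex_apply, Perm.mul_apply]
    rw [swap_apply_of_ne_of_ne (ne_of_lt hj) hjb]
  · simp only [Pi.toLex_apply, Perm.mul_apply, swap_apply_left]
    exact h

theorem P_indep (m : ℕ) (l : Perm (Fin (m + 1)) → ℤ) (hl : ∑ u, C (l u) * P m u = 0)
    (u : Perm (Fin (m + 1))) : l u = 0 := by
  have key : ∀ x : Lex (Fin (m + 1) → Fin (m + 1)), ∀ u : Perm (Fin (m + 1)),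
      toLex (⇑u) = x → ∀ l : Perm (Fin (m + 1)) → ℤ, ∑ u, C (l u) * P m u = 0 → l u = 0 := by
    intro x
    induction x using WellFoundedLT.induction with
    | ind x ih =>
      intro u hu l hl
      by_cases h1 : u = 1
      · subst h1
        have h2 := congrArg constantCoeff hl
        rw [map_sum, map_zero] at h2
        have h3 : ∀ u : Perm (Fin (m + 1)), constantCoeff (P m u) = if u = 1 then 1 else 0 := by
          intro u
          unfold P
          rw [map_PP]
          simp only [constantCoeff_X]
          exact PP_zero m u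
        simpa [h3] using h2
      · obtain ⟨a, b, hab, hdes⟩ := exists_descent h1
        have h2 : ∑ v, C (if v a < v b then l (v * swap a b) else 0) * P m v = 0 := by
          have h3 : (X (a : ℕ) - X (b : ℕ)) *
              ∑ v, C (if v a < v b then l (v * swap a b) else 0) * P m v =
              ∑ v, C (l v) * P m v - rename (swap (a : ℕ) (b : ℕ)) (∑ v, C (l v) * P m v) := by
            rw [map_sum, ← Finset.sum_sub_distrib, Finset.mul_sum,
              ← Equiv.sum_comp (Equiv.mulRight (swap a b))]
            apply Finset.sum_congr rfl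
            intro v _
            rw [map_mul, rename_C, ← mul_sub, P_swap m a b hab v]
            simp only [Equiv.coe_mulRight, Perm.mul_apply, swap_apply_left, swap_apply_right,
              mul_assoc, swap_mul_self, mul_one]
            split_ifs
            · ring
            · simp
          rw [hl, map_zero, sub_zero] at h3
          rcases mul_eq_zero.1 h3 with h4 | h4
          · exfalso
            rw [sub_eq_zero] at h4
            have := X_injective h4
            omega
          · exact h4
        have h5 := ih (toLex (⇑(u * swap a b))) (by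
          rw [← hu]
          exact lex_lt_of_descent u a b hab hdes) (u * swap a b) rfl _ h2
        simpa [Perm.mul_apply, hdes, mul_assoc, swap_mul_self] using h5
  exact key _ u rfl l hl

end Pool.Agent.Schubert
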